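import Mathlib
import Pool.Agent.V11103.AGMat

/-!
# The noncommutative AM-GM inequality for norms of products is false

For `m = n = 16` there are positive semidefinite matrices (with integer entries) for which the
average over products without replacement is more than seven times the average with replacement.

The label `i` acts in the direct sum over all permutations `β` of the labels by the rank one matrix
of the root vector `e_p - e_(p+1)`, `p = β i`. The norm of a product is `2` times the largest value
over `β` of the product of the absolute inner products of consecutive vectors. It is `2` for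
products without repetition, and it vanishes unless the sequence of the labels is a walk on a path.
-/

set_option autoImplicit false

namespace Pool.Agent.Results.MP_6169a9_an.NormInsideFails

open Finset Matrix
open scoped Matrix.Norms.L2Operator ComplexOrder

/-- `W_m`, the with-replacement average of the spectral norms of the products of length `m`. -/
noncomputable def W {n d : ℕ} (m : ℕ) (A : Fin n → Matrix (Fin d) (Fin d) ℂ) : ℝ :=
  1 / (n : ℝ) ^ m * ∑ j : Fin m → Fin n, ‖(List.ofFn fun t => A (j t)).prod‖

/-- `D_m`, the without-replacement average of the spectral norms of the products of length `m`. -/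
noncomputable def D {n d : ℕ} (m : ℕ) (A : Fin n → Matrix (Fin d) (Fin d) ℂ) : ℝ :=
  ((n - m).factorial : ℝ) / (n.factorial : ℝ) *
    ∑ j ∈ (univ : Finset (Fin m → Fin n)).filter Function.Injective,
      ‖(List.ofFn fun t => A (j t)).prod‖

open Pool.Agent.V11103.AG in
theorem num : 14 * (16 * ((Mop 16)^[15] (fun _ => 1)) 1) < 2 * 16 ^ 16 := by decide +kernel

open Pool.Agent.V11103.AG in
theorem ofFn_map {n m : ℕ} (j : Fin m → Fin n) :
    (List.ofFn fun t => A (j t)) = (List.ofFn j).map A := by
  rw [List.map_ofFn]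
  rfl

open Pool.Agent.V11103.AG in
theorem upper_gen (n t : ℕ) : W (t + 1) (fun i : Fin n => A i) ≤
    2 * ((n * ((Mop n)^[t] (fun _ => 1)) 1 : ℕ) : ℝ) / (n : ℝ) ^ (t + 1) := by
  unfold W
  have h1 : ∑ j : Fin (t + 1) → Fin n, ‖(List.ofFn fun t => A (j t)).prod‖ ≤
      ∑ j : Fin (t + 1) → Fin n, 2 * ((g (List.ofFn j) : ℕ) : ℝ) := by
    apply Finset.sum_le_sum
    intro j _
    rw [ofFn_map, List.ofFn_succ]
    exact norm_le _ _
  have h2 : ∑ j : Fin (t + 1) → Fin n, 2 * ((g (List.ofFn j) : ℕ) : ℝ) ≤
      2 * ((n * ((Mop n)^[t] (fun _ => 1)) 1 : ℕ) : ℝ) := by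
    rw [← Finset.mul_sum]
    apply mul_le_mul_of_nonneg_left _ (by norm_num)
    have h3 := total (n := n) t (fun _ => 1)
    have h4 : ∑ j : Fin (t + 1) → Fin n, g (List.ofFn j) ≤ n * ((Mop n)^[t] fun _ => 1) 1 := by
      refine le_trans (le_of_eq ?_) h3
      apply Finset.sum_congr rfl
      intro j _
      rw [mul_one]
    exact_mod_cast h4
  have h5 := h1.trans h2
  have h6 : (0 : ℝ) ≤ 1 / (n : ℝ) ^ (t + 1) := by positivity
  refine (mul_le_mul_of_nonneg_left h5 h6).trans (le_of_eq ?_)
  ring

open Pool.Agent.V11103.AG in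
theorem cc_range : cc (List.ofFn (fun t : Fin 16 => t)) = 1 := by decide

open Pool.Agent.V11103.AG in
theorem lower_gen (n : ℕ) (hcc : cc (List.ofFn (fun t : Fin (n + 1) => t)) = 1) :
    2 ≤ D (n + 1) (fun i : Fin (n + 1) => A i) := by
  unfold D
  have h1 : ∀ j ∈ (univ : Finset (Fin (n + 1) → Fin (n + 1))).filter Function.Injective,
      (2 : ℝ) ≤ ‖(List.ofFn fun t => A (j t)).prod‖ := by
    intro j hj
    rw [mem_filter] at hj
    have hb : Function.Bijective j := Finite.injective_iff_bijective.1 hj.2
    let β : Equiv.Perm (Fin (n + 1)) := (Equiv.ofBijective j hb).symm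
    have h2 : cN β (List.ofFn j) = 1 := by
      unfold cN
      rw [List.map_ofFn]
      have : (β ∘ j) = fun t => t := by
        funext t
        exact Equiv.ofBijective_symm_apply_apply j hb t
      rw [this]
      exact hcc
    have h3 := le_norm (j 0) (List.ofFn fun i : Fin n => j i.succ) β
    rw [← List.ofFn_succ (f := j), h2] at h3
    rw [ofFn_map]
    simpa using h3
  have h4 := Finset.card_nsmul_le_sum _ _ _ h1
  have h5 : ((univ : Finset (Fin (n + 1) → Fin (n + 1))).filter Function.Injective).card =
      Nat.factorial (n + 1) := by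
    have h6 : ((univ : Finset (Fin (n + 1) → Fin (n + 1))).filter Function.Injective).card =
        Fintype.card (Fin (n + 1) ↪ Fin (n + 1)) := by
      rw [← Fintype.card_subtype]
      exact Fintype.card_congr (Equiv.subtypeInjectiveEquivEmbedding _ _)
    rw [h6, Fintype.card_embedding_eq, Fintype.card_fin, Nat.descFactorial_self]
  rw [h5, nsmul_eq_mul] at h4
  have h7 : (0 : ℝ) < (Nat.factorial (n + 1) : ℝ) := by positivity
  rw [Nat.sub_self, Nat.factorial_zero, Nat.cast_one]
  rw [div_mul_eq_mul_div, one_mul, le_div_iff₀ h7]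
  linarith

/-- There are `1 ≤ m ≤ n` and positive semidefinite matrices `A_1, …, A_n` of the same size, with
integer entries, such that `W_m < D_m`; in the example `m = n = 16` and even `7 W_m < D_m`. -/
theorem result : ∃ (d m n : ℕ) (A : Fin n → Matrix (Fin d) (Fin d) ℂ),
    1 ≤ d ∧ 1 ≤ m ∧ m ≤ n ∧ (∀ i, (A i).PosSemidef) ∧ (∀ i b c, ∃ z : ℤ, A i b c = (z : ℂ)) ∧
      m = 16 ∧ n = 16 ∧ W m A < D m A ∧ 7 * W m A < D m A := by
  have h3 : 7 * W 16 (fun i : Fin 16 => Pool.Agent.V11103.AG.A i) <
      D 16 (fun i : Fin 16 => Pool.Agent.V11103.AG.A i) := by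
    have h1 := upper_gen 16 15
    have h2 := lower_gen 15 cc_range
    have h4 := num
    generalize 16 * ((Pool.Agent.V11103.AG.Mop 16)^[15] (fun _ => 1)) 1 = K at h1 h4
    have h4 : (14 : ℝ) * (K : ℝ) < 2 * 16 ^ 16 := by exact_mod_cast h4
    have h1 : W 16 (fun i : Fin 16 => Pool.Agent.V11103.AG.A i) ≤ 2 * (K : ℝ) / 16 ^ 16 := by
      exact_mod_cast h1
    set H : ℝ := (K : ℝ) with hH
    have h5 : 2 * H / 16 ^ 16 < 2 / 7 := by
      rw [div_lt_div_iff₀ (by positivity) (by norm_num)]
      linarith
    linarith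
  have h0 : 0 ≤ W 16 (fun i : Fin 16 => Pool.Agent.V11103.AG.A i) := by
    unfold W
    apply mul_nonneg
    · positivity
    · exact Finset.sum_nonneg fun j _ => norm_nonneg _
  refine ⟨Pool.Agent.V11103.AG.dm 16, 16, 16, fun i => Pool.Agent.V11103.AG.A i, ?_, by norm_num,
    le_rfl, fun i => Pool.Agent.V11103.AG.A_psd i, fun i b c => Pool.Agent.V11103.AG.A_int i b c,
    rfl, rfl, by linarith, h3⟩
  unfold Pool.Agent.V11103.AG.dm
  exact Fintype.card_pos

end Pool.Agent.Results.MP_6169a9_an.NormInsideFails
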